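import Pool.Agent.Work.MP_db9399_sg_helper35.DBL

/-! # SWG, block AN: the reserves of all classes (helper35) -/

set_option autoImplicit false

namespace Pool.Agent.Work.MP_db9399_sg.helper35

open Finset Classical
open Pool.Agent.Work.MP_db9399_all (nb)
open Pool.Agent.Work.MP_db9399_cg

universe u

attribute [-instance] Subtype.instDecidableEq instDecidableEqProd

/-- A1 for several graphs with common labels (helper68) -/
def Stmt_A1N : Prop :=
  ∀ (a C : ℝ) (n2 : ℕ), 0 < a → a ≤ 1 / 100 → 4 ≤ n2 → 1 ≤ C → ∃ d0 : ℕ,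
    ∀ {W J : Type u} [Fintype W] [Fintype J] (Vj : J → Type u) [∀ j, Fintype (Vj j)]
      (π : ∀ j, Vj j → W) (G : ∀ j, SimpleGraph (Vj j)) (d : ℕ) (D : J → ℕ), d0 ≤ d →
      (∀ j, Function.Injective (π j)) → (∀ j, D j ≤ d ∧ (d : ℝ) ≤ C * D j) →
      (Fintype.card J : ℝ) ≤ C → (∀ j, Reg (G j) (D j)) →
      ∃ (K : Finset W) (M : Bool → Finset W), ∀ j, Lab (G j) (D j) a (1 / 64) (1 / n2)
        (univ.filter fun x => π j x ∈ K) (fun s => univ.filter fun x => π j x ∈ M s)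

section

variable {V I : Type u} [Fintype V] [Fintype I]

/-- the comparison for `cut2` -/
theorem cut_rst {Gh : SimpleGraph V} {A : Finset V} {D : ℕ} {S2 : SimpleGraph (DV A)} {f : ℕ}
    {a ρ0 MS : ℝ} {q : ℕ} {K Exc : Finset (DV A)} {X : Fin q → DV A → DV A → Prop}
    (hA : ∀ v w, Gh.Adj v w → w ∈ A) (R : ResX (dbl Gh A D) S2 D f q a ρ0 MS K Exc X)
    (hnum : 2 / (2 * (f : ℝ) + 1) ≤ (D : ℝ) ^ (-a)) (T : Finset V) (hTA : T ⊆ A)
    (hT : (T.card : ℝ) ≤ MS * D) :
    1 / 20 * cut2 Gh D T - 5 * (D : ℝ) ^ (-a) * T.card ≤ cut2 (rst A S2) (2 * f - 1 + 2) T := by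
  have hf : ((D : ℝ) ^ (1 - a) + 10 : ℝ) ≤ 2 * f := R.rlo
  have hf0 : (1 : ℝ) ≤ f := by
    have : 0 ≤ (D : ℝ) ^ (1 - a) := Real.rpow_nonneg (Nat.cast_nonneg _) _
    linarith
  have hf1 : 1 ≤ f := by exact_mod_cast hf0
  have e0 : ((2 * f - 1 + 2 : ℕ) : ℝ) = 2 * (f : ℝ) + 1 := by
    have : 2 * f - 1 + 2 = 2 * f + 1 := by omega
    rw [this]
    push_cast
    ring
  have key : ∀ u ∈ T, 1 / 20 * (∑ w ∈ univ \ T, cdg Gh u w / (D : ℝ) ^ 2) - 5 * (D : ℝ) ^ (-a) ≤
      ∑ w ∈ univ \ T, cdg (rst A S2) u w / ((2 * f - 1 + 2 : ℕ) : ℝ) ^ 2 := by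
    intro u hu
    have huA := hTA hu
    have h1 := R.cmp ⟨(u, false), huA⟩ (cop A false T)
      (by rw [cop, mem_filter]; exact ⟨mem_univ _, hu, rfl⟩)
      (by rw [card_cop]; exact le_trans (by exact_mod_cast card_le_card inter_subset_left) hT)
    have h2 := sum_rst (Gh := Gh) (D := D) R.sub (2 * f + 1) R.hi u huA T hu
    have h3 := sum_dbl (D := D) hA u huA T
    rw [e0]
    rw [← sum_div, ← sum_div] at h1 ⊢
    set Q : ℝ := (2 * (f : ℝ) + 1) ^ 2 with hQ
    have hQ0 : 0 < Q := by positivity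
    have h4 : (∑ x ∈ univ \ cop A false T, cdg S2 ⟨(u, false), huA⟩ x) / Q ≤
        (∑ w ∈ univ \ T, cdg (rst A S2) u w) / Q + 2 / (2 * (f : ℝ) + 1) := by
      have e1 : 2 / (2 * (f : ℝ) + 1) = 2 * ((2 * f + 1 : ℕ) : ℝ) / Q := by
        rw [hQ]
        push_cast
        field_simp
      rw [e1, ← add_div]
      exact div_le_div_of_nonneg_right h2 hQ0.le
    have h5 : (∑ w ∈ univ \ T, cdg Gh u w) / (D : ℝ) ^ 2 ≤
        (∑ x ∈ univ \ cop A false T, cdg (dbl Gh A D) ⟨(u, false), huA⟩ x) / (D : ℝ) ^ 2 :=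
      div_le_div_of_nonneg_right h3 (by positivity)
    linarith
  unfold cut2
  have h6 := sum_le_sum key
  rw [sum_sub_distrib, ← mul_sum, sum_const, nsmul_eq_mul] at h6
  linarith

end

/-- numerics of AN -/
theorem numN (a ρ0 MS C c1 : ℝ) (ha : 0 < a) (ha1 : a ≤ 1 / 100) (hc1 : 0 < c1) :
    ∃ D0 : ℕ, ∀ D : ℕ, D0 ≤ D → 2 ≤ D ∧ 20000 ≤ (D : ℝ) ^ (1 - a) ∧
      3 / ρ0 ≤ (D : ℝ) ^ (1 - a) ∧ 5 * (D : ℝ) ^ (-a) ≤ c1 / 25 ∧
      2 ≤ (D : ℝ) ^ (1 - a) * (D : ℝ) ^ (-a) ∧
      125 * MS * C * (D : ℝ) ^ (-a) ≤ (D : ℝ) ^ (-(a / 200)) := by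
  have h1 : Filter.Tendsto (fun d : ℕ => (d : ℝ) ^ (1 - a)) Filter.atTop Filter.atTop :=
    (tendsto_rpow_atTop (by linarith)).comp tendsto_natCast_atTop_atTop
  have h2 : Filter.Tendsto (fun d : ℕ => (d : ℝ) ^ (1 - 2 * a)) Filter.atTop Filter.atTop :=
    (tendsto_rpow_atTop (by linarith)).comp tendsto_natCast_atTop_atTop
  have h3 : Filter.Tendsto (fun d : ℕ => (d : ℝ) ^ a) Filter.atTop Filter.atTop :=
    (tendsto_rpow_atTop ha).comp tendsto_natCast_atTop_atTop
  have h4 : Filter.Tendsto (fun d : ℕ => (d : ℝ) ^ (a - a / 200)) Filter.atTop Filter.atTop :=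
    (tendsto_rpow_atTop (by linarith)).comp tendsto_natCast_atTop_atTop
  obtain ⟨d1, hd1⟩ := Filter.eventually_atTop.1 ((h1.eventually_ge_atTop 20000).and
    ((h1.eventually_ge_atTop (3 / ρ0)).and ((h3.eventually_ge_atTop (125 / c1)).and
      ((h2.eventually_ge_atTop 2).and ((h4.eventually_ge_atTop (125 * MS * C)).and
        (Filter.eventually_ge_atTop 2))))))
  refine ⟨d1, fun D hD => ?_⟩
  obtain ⟨l1, l2, l3, l4, l5, l6⟩ := hd1 D hD
  have hdg : (2 : ℝ) ≤ D := by exact_mod_cast l6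
  have hdp : (0 : ℝ) < D := by linarith
  refine ⟨l6, l1, l2, ?_, ?_, ?_⟩
  · rw [Real.rpow_neg hdp.le]
    have hp : 0 < (D : ℝ) ^ a := Real.rpow_pos_of_pos hdp _
    rw [div_le_iff₀ hc1] at l3
    rw [← div_eq_mul_inv, div_le_iff₀ hp]
    linarith
  · rw [← Real.rpow_add hdp]
    have : 1 - a + -a = 1 - 2 * a := by ring
    rw [this]
    exact l4
  · have hp : 0 < (D : ℝ) ^ (-a) := Real.rpow_pos_of_pos hdp _
    calc 125 * MS * C * (D : ℝ) ^ (-a) ≤ (D : ℝ) ^ (a - a / 200) * (D : ℝ) ^ (-a) :=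
          mul_le_mul_of_nonneg_right l5 hp.le
      _ = (D : ℝ) ^ (-(a / 200)) := by
          rw [← Real.rpow_add hdp]
          ring_nf

/-- **AN** -/
theorem stmt_AN (hA1N : Stmt_A1N.{u}) (hA34 : Stmt_A34.{u}) (hA5 : Stmt_A5N.{u}) :
    Stmt_AN.{u} := by
  intro a ρ0 ρ2 MS C δ β c1 ha ha1 hρ2 hρ02 hρ1 hMS hC hδ hβ hc1 hc11
  have hρ : 0 < ρ0 := hρ2.trans_le hρ02
  obtain ⟨n2, dX, hn4, HX⟩ := resX.{u} hA34 hA5 a ρ2 MS 2 ha ha1 hρ2
  obtain ⟨d1, H1⟩ := hA1N a C n2 ha ha1 hn4 hC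
  obtain ⟨DN, HN⟩ := numN a ρ2 MS C c1 ha ha1 hc1
  refine ⟨max d1 ⌈C * (max dX DN : ℕ)⌉₊, ?_⟩
  intro V I J _ _ _ H Gh O A Ex nd d D r g hd hD hJ hg hg1 hr0 hW
  have hd1 : d1 ≤ d := (le_max_left _ _).trans hd
  have hDX : ∀ j, max dX DN ≤ D j := by
    intro j
    have h1 : C * (max dX DN : ℕ) ≤ (d : ℝ) :=
      (Nat.le_ceil _).trans (by exact_mod_cast (le_max_right _ _).trans hd)
    have h2 := (hD j).2
    have h3 : C * ((max dX DN : ℕ) : ℝ) ≤ C * D j := h1.trans h2
    have h4 : ((max dX DN : ℕ) : ℝ) ≤ D j := le_of_mul_le_mul_left h3 (by linarith)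
    exact_mod_cast h4
  have hsup : ∀ j v w, (Gh j).Adj v w → w ∈ A j := fun j v w h => (hW j).sup w v h.symm
  have hreg : ∀ j, Reg (dbl (Gh j) (A j) (D j)) (D j) := fun j =>
    reg_dbl (Gh j) (A j) (D j) (hsup j) (fun v hv => (hW j).dex v hv)
  obtain ⟨K', M', hLab⟩ := H1 (W := V × Bool) (J := J) (fun j => DV (A j))
    (fun j x => x.1) (fun j => dbl (Gh j) (A j) (D j)) d D hd1
    (fun j => Subtype.val_injective) hD hJ hreg
  have hf : ∀ j, ∃ f : ℕ, r j = 2 * f - 1 ∧ 1 ≤ f := by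
    intro j
    obtain ⟨k, hk⟩ := (hr0 j).1
    exact ⟨k + 1, by omega, by omega⟩
  choose f hf1 hf2 using hf
  have hf3 : ∀ j, (r j : ℝ) + 1 = 2 * f j := by
    intro j
    have h1 := hf1 j
    have h2 := hf2 j
    have h3 : r j + 1 = 2 * f j := by omega
    exact_mod_cast h3
  have hex : ∀ j, ∃ (S2 : SimpleGraph (DV (A j))),
      ResX (dbl (Gh j) (A j) (D j)) S2 (D j) (f j) 2 a ρ2 MS
        (univ.filter fun x : DV (A j) => x.1 ∈ K')
        ((univ.filter fun x : DV (A j) => x.1 ∈ M' true) ∪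
          (univ.filter fun x : DV (A j) => x.1 ∈ M' false))
        ![fun x y => (H j).Adj x.1.1 y.1.1, fun _ y => y ∈ cop (A j) false (Ex j)] := by
    intro j
    have h1 := (hr0 j).2
    have h2 := hf3 j
    exact HX _ (D j) (f j) _ (fun s => univ.filter fun x : DV (A j) => x.1 ∈ M' s) _
      ((le_max_left _ _).trans (hDX j)) (hreg j) (by linarith) (by linarith) (hLab j)
  choose S2 R using hex
  refine ⟨fun j => rst (A j) (S2 j), univ.filter fun v => (v, false) ∈ K',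
    fun j => Ex j ∪ univ.filter fun v => (v, false) ∈ M' true ∨ (v, false) ∈ M' false, ?_⟩
  intro j
  refine ⟨?_, subset_union_left⟩
  rw [hf1 j]
  obtain ⟨n1, n2', n3, n4, n5, n6⟩ := HN (D j) ((le_max_right _ _).trans (hDX j))
  have Rj := R j
  have Wj := hW j
  have hDp : (0 : ℝ) < D j := by
    have : (2 : ℝ) ≤ D j := by exact_mod_cast n1
    linarith
  have hfR := Rj.rlo
  have hf2 : (20000 : ℝ) ≤ 2 * f j := by linarith
  have hfN : 1 ≤ f j := by
    have : (1 : ℝ) ≤ f j := by linarith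
    exact_mod_cast this
  have hr : ((2 * f j - 1 : ℕ) : ℝ) = 2 * (f j : ℝ) - 1 := by
    rw [Nat.cast_sub (by omega)]
    push_cast
    ring
  have hrn : 2 * f j - 1 + 2 = 2 * f j + 1 := by omega
  have hpow : 0 < (D j : ℝ) ^ (-a) := Real.rpow_pos_of_pos hDp _
  have hnum : 2 / (2 * (f j : ℝ) + 1) ≤ (D j : ℝ) ^ (-a) := by
    rw [div_le_iff₀ (by positivity)]
    have h1 : (D j : ℝ) ^ (1 - a) * (D j : ℝ) ^ (-a) ≤ (2 * (f j : ℝ) + 1) * (D j : ℝ) ^ (-a) :=
      mul_le_mul_of_nonneg_right (by linarith) hpow.le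
    linarith
  have hcut := fun T hTA hT => cut_rst (hsup j) Rj hnum T hTA hT
  have hempty : ∀ v, v ∉ A j → nb (rst (A j) (S2 j)) v = ∅ := by
    intro v hv
    rw [eq_empty_iff_forall_notMem]
    intro y hy
    exact hv (mem_nb.1 hy).1
  -- test sets
  have hX : ∀ (v : V) (hv : v ∈ A j) (Y : Finset V), (nb (dbl (Gh j) (A j) (D j)) ⟨(v, false), hv⟩ ∩
      cop (A j) false Y).card ≤ (nb (Gh j) v ∩ Y).card := by
    intro v hv Y
    refine card_le_card_of_injOn (fun x => x.1.1) ?_ ?_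
    · intro x hx
      rw [mem_coe, mem_inter, cop, mem_filter] at hx
      rw [mem_coe, mem_inter]
      exact ⟨mem_nb.2 (dbl_ff (mem_nb.1 hx.1) hx.2.2.2.symm), hx.2.2.1⟩
    · intro x hx y hy hxy
      rw [mem_coe, mem_inter, cop, mem_filter] at hx hy
      apply Subtype.ext
      exact Prod.ext hxy (hx.2.2.2.trans hy.2.2.2.symm)
  have hEx : ∀ v, ((nb (rst (A j) (S2 j)) v ∩ Ex j).card : ℝ) ≤ 3 * ρ0 * (2 * f j) := by
    intro v
    by_cases hv : v ∈ A j
    · rw [card_rst v hv (Ex j)]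
      have h1 := Rj.tst 1 ⟨(v, false), hv⟩ ρ0 hρ.le hρ1 (by
        refine le_trans ?_ (Wj.exc v)
        refine Nat.cast_le.2 (le_trans (card_le_card ?_) (hX v hv (Ex j)))
        intro y hy
        rw [mem_filter] at hy
        exact mem_inter.2 ⟨hy.1, hy.2⟩)
      have e : (2 * ρ0 + ρ2) * (2 * (f j : ℝ)) ≤ 3 * ρ0 * (2 * f j) :=
        mul_le_mul_of_nonneg_right (by linarith) (by positivity)
      refine le_trans (Nat.cast_le.2 (card_le_card ?_)) (h1.trans e)
      intro y hy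
      rw [mem_inter] at hy
      rw [mem_filter]
      exact ⟨hy.1, hy.2⟩
    · rw [hempty v hv, empty_inter, card_empty, Nat.cast_zero]
      positivity
  have hlg : ∀ v, v ∉ O → (((nb (rst (A j) (S2 j)) v).filter fun w => (H j).Adj v w).card : ℝ) ≤
      (2 * (((nb (H j) v).card : ℝ) / D j) + 8 * ρ2) * ((2 * f j - 1 : ℕ) : ℝ) := by
    intro v hv
    by_cases hvA : v ∈ A j
    · have h1 : (nb (rst (A j) (S2 j)) v).filter (fun w => (H j).Adj v w) =
          nb (rst (A j) (S2 j)) v ∩ univ.filter fun w => (H j).Adj v w := by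
        ext w
        simp
      have h2 : (((nb (dbl (Gh j) (A j) (D j)) ⟨(v, false), hvA⟩).filter fun y =>
          (H j).Adj v y.1.1).card : ℝ) ≤ ((nb (H j) v).card : ℝ) := by
        refine Nat.cast_le.2 (card_le_card_of_injOn (fun x => x.1.1) ?_ ?_)
        · intro x hx
          rw [mem_coe, mem_filter] at hx
          exact mem_coe.2 (mem_nb.2 hx.2)
        · intro x hx y hy hxy
          rw [mem_coe, mem_filter] at hx hy
          have k : ∀ z : DV (A j), z ∈ nb (dbl (Gh j) (A j) (D j)) ⟨(v, false), hvA⟩ →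
              (H j).Adj v z.1.1 → z.1.2 = false := by
            intro z hz1 hz2
            by_contra hcon
            have h3 := dbl_ft (mem_nb.1 hz1) (fun h => hcon h.symm)
            have h4 : z.1.1 = v := h3.1.symm
            rw [h4] at hz2
            exact (H j).loopless.irrefl v hz2
          apply Subtype.ext
          exact Prod.ext hxy ((k x hx.1 hx.2).trans (k y hy.1 hy.2).symm)
      have h4 : ((nb (H j) v).card : ℝ) ≤ 1 * D j := by
        rw [one_mul]
        refine Nat.cast_le.2 (le_trans (card_le_card ?_) (Wj.dex v hvA).1)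
        intro w hw
        exact mem_nb.2 (Wj.HG (mem_nb.1 hw))
      set B : ℝ := ((nb (H j) v).card : ℝ) / D j with hB
      have hB0 : 0 ≤ B := by positivity
      have hB1 : B ≤ 1 := by
        rw [hB, div_le_iff₀ hDp]
        exact h4
      have h4' : ((nb (H j) v).card : ℝ) ≤ B * D j := by
        rw [hB, div_mul_cancel₀ _ hDp.ne']
      have h5 := Rj.tst 0 ⟨(v, false), hvA⟩ B hB0 hB1 (h2.trans h4')
      have h5' : (((nb (rst (A j) (S2 j)) v).filter fun w => (H j).Adj v w).card : ℝ) ≤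
          (2 * B + ρ2) * (2 * (f j : ℝ)) := by
        rw [h1, card_rst v hvA]
        refine le_trans (Nat.cast_le.2 (card_le_card ?_)) h5
        intro x hx
        rw [mem_inter, cop, mem_filter, mem_filter] at hx
        rw [mem_filter]
        exact ⟨hx.1, hx.2.2.1.2⟩
      rw [hr]
      have h8 : 3 ≤ ρ2 * (2 * (f j : ℝ)) := by
        have h9 := n3
        rw [div_le_iff₀ hρ2] at h9
        have h10 : (D j : ℝ) ^ (1 - a) * ρ2 ≤ (2 * (f j : ℝ)) * ρ2 :=
          mul_le_mul_of_nonneg_right (by linarith) hρ2.le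
        linarith
      have h10 : (2 * B + ρ2) * (2 * (f j : ℝ)) ≤ (2 * B + 8 * ρ2) * (2 * (f j : ℝ) - 1) := by
        have e1 : (2 * B + 8 * ρ2) * (2 * (f j : ℝ) - 1) - (2 * B + ρ2) * (2 * (f j : ℝ)) =
          7 * (ρ2 * (2 * (f j : ℝ))) - 8 * ρ2 - 2 * B := by ring
        linarith
      exact h5'.trans h10
    · rw [hempty v hvA, filter_empty, card_empty, Nat.cast_zero, hr]
      refine mul_nonneg (by positivity) (by linarith)
  refine ⟨fun v w h => rst_le Rj.sub h, ?_, hlg, ?_, ?_, ⟨?_, ?_, ?_, ?_, ?_, ?_⟩,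
    ?_, ?_, ?_, ?_, ?_⟩
  · -- eg
    intro v hv
    have h1 := Rj.lo ⟨(v, false), hv⟩
    have h2 := Wj.dex v hv
    dsimp only
    by_cases h3 : (nb (Gh j) v).card + 1 = D j
    · have h4 := card_rst' Rj.sub v hv univ
      rw [inter_univ] at h4
      have h5 := card_le_card (filter_subset (fun w => ∃ hw : w ∈ A j,
        (⟨(w, false), hw⟩ : DV (A j)) ∈ univ) (nb (rst (A j) (S2 j)) v))
      omega
    · have h4 := card_rst_eq Rj.sub v hv h3
      omega
  · rw [hr]
    linarith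
  · rw [hr]
    linarith [Rj.rhi]
  · -- sup
    intro v w h
    exact h.1
  · -- lo
    intro v hv
    have h1 := card_rst' Rj.sub v hv univ
    rw [inter_univ] at h1
    have h2 := Rj.lo ⟨(v, false), hv⟩
    have h3 := card_le_card (filter_subset (fun w => ∃ hw : w ∈ A j,
      (⟨(w, false), hw⟩ : DV (A j)) ∈ univ) (nb (rst (A j) (S2 j)) v))
    dsimp only
    omega
  · -- hi
    intro v
    by_cases hv : v ∈ A j
    · have h1 := card_rst_le (S2 := S2 j) v hv
      have h2 := Rj.hi ⟨(v, false), hv⟩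
      dsimp only
      omega
    · dsimp only
      rw [hempty v hv, card_empty]
      omega
  · -- sm
    intro T hTA hT
    have hT0 : (0 : ℝ) ≤ T.card := Nat.cast_nonneg _
    have hT1 : (T.card : ℝ) ≤ c1 * D j := by
      refine hT.trans (mul_le_mul_of_nonneg_right (by linarith) hDp.le)
    have hT2 : (T.card : ℝ) ≤ MS * D j :=
      hT1.trans (mul_le_mul_of_nonneg_right (by linarith) hDp.le)
    have h1 := Wj.sm T hTA hT1
    have h2 := hcut T hTA hT2
    have h3 : 5 * (D j : ℝ) ^ (-a) * T.card ≤ c1 / 25 * T.card :=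
      mul_le_mul_of_nonneg_right n4 hT0
    have h4 : 0 ≤ c1 * T.card := by positivity
    linarith
  · -- cl
    intro T hTA hT hcl
    refine Wj.cl T hTA hT ?_
    have h2 := hcut T hTA hT
    have h3 : 5 * (D j : ℝ) ^ (-a) * T.card ≤ 5 * (D j : ℝ) ^ (-a) * (MS * D j) :=
      mul_le_mul_of_nonneg_left hT (by positivity)
    have hg' : (D j : ℝ) ^ (-(a / 200)) ≤ C * g := by
      have hd0 : (0 : ℝ) < d := by
        have h5 : (D j : ℝ) ≤ d := by exact_mod_cast (hD j).1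
        linarith
      have h5 : (C * D j : ℝ) ^ (-(a / 200)) ≤ (d : ℝ) ^ (-(a / 200)) :=
        Real.rpow_le_rpow_of_nonpos hd0 (hD j).2 (by linarith)
      rw [Real.mul_rpow (by linarith) hDp.le] at h5
      have h6 : C ^ (-(1 : ℝ)) ≤ C ^ (-(a / 200)) :=
        Real.rpow_le_rpow_of_exponent_le hC (by linarith)
      rw [Real.rpow_neg (by linarith), Real.rpow_one] at h6
      have h7 : C⁻¹ * (D j : ℝ) ^ (-(a / 200)) ≤ g :=
        (mul_le_mul_of_nonneg_right h6 (Real.rpow_nonneg hDp.le _)).trans (h5.trans hg)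
      rw [inv_mul_le_iff₀ (by linarith)] at h7
      exact h7
    have h8 : 125 * MS * (D j : ℝ) ^ (-a) ≤ g := by
      have h9 : C * (125 * MS * (D j : ℝ) ^ (-a)) ≤ C * g := by
        refine le_trans (le_of_eq (by ring)) (n6.trans hg')
      exact le_of_mul_le_mul_left h9 (by linarith)
    have h10 : 125 * MS * (D j : ℝ) ^ (-a) * D j ≤ g * D j := mul_le_mul_of_nonneg_right h8 hDp.le
    have e1 : 5 * (D j : ℝ) ^ (-a) * (MS * D j) = 1 / 25 * (125 * MS * (D j : ℝ) ^ (-a) * D j) := by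
      ring
    rw [e1] at h3
    have hgD : 0 ≤ g * D j := by
      refine le_trans ?_ h10
      have : 0 ≤ MS := by linarith
      positivity
    linarith
  · -- cr
    intro v hv
    by_cases hvA : v ∈ A j
    · have hb : ((nb (H j) v).card : ℝ) / D j ≤ β := by
        rw [div_le_iff₀ hDp]
        exact Wj.lgt v hv
      refine le_trans (le_trans (Nat.cast_le.2 (card_le_card ?_)) (hlg v hv))
        (mul_le_mul_of_nonneg_right (by linarith) (Nat.cast_nonneg _))
      intro w hw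
      rw [mem_inter] at hw
      rw [mem_filter]
      refine ⟨hw.1, ?_⟩
      by_contra hcon
      obtain ⟨i, s, _, h4⟩ := Wj.gad v w (rst_le Rj.sub (mem_nb.1 hw.1)) hcon
      have h5 := (Wj.cov w (Wj.OA hw.2)).1 hw.2
      rw [h5] at h4
      exact absurd h4 (by simp)
    · rw [hempty v hvA, empty_inter, card_empty, Nat.cast_zero, hr]
      refine mul_nonneg (by positivity) (by linarith)
  · -- off
    intro v hvA hv
    rw [mem_union, not_or, mem_filter, not_and] at hv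
    have h1 := hv.2 (mem_univ _)
    rw [not_or] at h1
    have h2 := Wj.deg v hvA hv.1
    rw [card_rst_eq Rj.sub v hvA (by omega)]
    have h3 := Rj.off ⟨(v, false), hvA⟩ (by
      rw [mem_union, mem_filter, mem_filter, not_or]
      exact ⟨fun h => h1.1 h.2, fun h => h1.2 h.2⟩)
    rw [h3]
    omega
  · -- exc
    intro v
    rw [inter_union_distrib_left]
    have h1 : ((nb (rst (A j) (S2 j)) v ∩ univ.filter fun w => (w, false) ∈ M' true ∨
        (w, false) ∈ M' false).card : ℝ) ≤ ρ0 * (2 * f j) := by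
      by_cases hv : v ∈ A j
      · refine le_trans ?_ ((Rj.exc ⟨(v, false), hv⟩).trans
          (mul_le_mul_of_nonneg_right hρ02 (by positivity)))
        rw [card_rst v hv]
        refine Nat.cast_le.2 (card_le_card ?_)
        refine inter_subset_inter_left ?_
        intro x hx
        rw [cop, mem_filter, mem_filter] at hx
        have h4 : x.1 = (x.1.1, false) := Prod.ext rfl hx.2.2
        rw [mem_union, mem_filter, mem_filter, h4]
        rcases hx.2.1.2 with h | h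
        · exact Or.inl ⟨mem_univ _, h⟩
        · exact Or.inr ⟨mem_univ _, h⟩
      · rw [hempty v hv, empty_inter, card_empty, Nat.cast_zero]
        positivity
    have h2 := hEx v
    have h3 : ((nb (rst (A j) (S2 j)) v ∩ Ex j ∪ (nb (rst (A j) (S2 j)) v ∩ univ.filter fun w =>
        (w, false) ∈ M' true ∨ (w, false) ∈ M' false)).card : ℝ) ≤
        ((nb (rst (A j) (S2 j)) v ∩ Ex j).card : ℝ) +
        ((nb (rst (A j) (S2 j)) v ∩ univ.filter fun w =>
        (w, false) ∈ M' true ∨ (w, false) ∈ M' false).card : ℝ) := by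
      exact_mod_cast card_union_le _ _
    rw [hr]
    nlinarith
  · -- K1
    intro v hv w hw h
    rw [mem_filter] at hv hw
    obtain ⟨h1, h2, h3⟩ := h
    exact Rj.K1 ⟨(v, false), h1⟩ (by rw [mem_filter]; exact ⟨mem_univ _, hv.2⟩) ⟨(w, false), h2⟩
      (by rw [mem_filter]; exact ⟨mem_univ _, hw.2⟩) h3
  · -- K2
    intro v hvA hv
    rw [mem_filter, not_and] at hv
    have h1 := Rj.K2 ⟨(v, false), hvA⟩ (by
      rw [mem_filter]
      exact fun h => hv (mem_univ _) h.2)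
    have h2 := card_rst' Rj.sub v hvA (univ.filter fun x : DV (A j) => x.1 ∈ K')
    have h3 : ((nb (rst (A j) (S2 j)) v).filter fun w => ∃ hw : w ∈ A j,
        (⟨(w, false), hw⟩ : DV (A j)) ∈ univ.filter fun x : DV (A j) => x.1 ∈ K') ⊆
        nb (rst (A j) (S2 j)) v ∩ univ.filter fun v => (v, false) ∈ K' := by
      intro w hw
      rw [mem_filter] at hw
      obtain ⟨h4, h5, h6⟩ := hw
      rw [mem_filter] at h6
      rw [mem_inter, mem_filter]
      exact ⟨h4, mem_univ _, h6.2⟩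
    have h4 : ((nb (S2 j) ⟨(v, false), hvA⟩ ∩ univ.filter fun x : DV (A j) => x.1 ∈ K').card : ℝ) ≤
        ((nb (rst (A j) (S2 j)) v ∩ univ.filter fun v => (v, false) ∈ K').card : ℝ) + 1 := by
      exact_mod_cast h2.trans (Nat.add_le_add_right (card_le_card h3) 1)
    rw [hr]
    linarith
  · -- K3
    intro v hvA
    have h1 := Rj.K3 ⟨(v, false), hvA⟩
    have h2 := card_rst' Rj.sub v hvA (univ.filter fun x : DV (A j) => ¬ x.1 ∈ K')
    have h3 : ((nb (rst (A j) (S2 j)) v).filter fun w => ∃ hw : w ∈ A j,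
        (⟨(w, false), hw⟩ : DV (A j)) ∈ univ.filter fun x : DV (A j) => ¬ x.1 ∈ K') ⊆
        nb (rst (A j) (S2 j)) v \ univ.filter fun v => (v, false) ∈ K' := by
      intro w hw
      rw [mem_filter] at hw
      obtain ⟨h4, h5, h6⟩ := hw
      rw [mem_filter] at h6
      rw [Finset.mem_sdiff, mem_filter]
      exact ⟨h4, fun h => h6.2 h.2⟩
    have h5 : (nb (S2 j) ⟨(v, false), hvA⟩ \ univ.filter fun x : DV (A j) => x.1 ∈ K') ⊆
        nb (S2 j) ⟨(v, false), hvA⟩ ∩ univ.filter fun x : DV (A j) => ¬ x.1 ∈ K' := by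
      intro x hx
      rw [Finset.mem_sdiff, mem_filter] at hx
      rw [mem_inter, mem_filter]
      exact ⟨hx.1, mem_univ _, fun h => hx.2 ⟨mem_univ _, h⟩⟩
    have h4 : ((nb (S2 j) ⟨(v, false), hvA⟩ \ univ.filter fun x : DV (A j) => x.1 ∈ K').card : ℝ) ≤
        ((nb (rst (A j) (S2 j)) v \ univ.filter fun v => (v, false) ∈ K').card : ℝ) + 1 := by
      exact_mod_cast (card_le_card h5).trans (h2.trans (Nat.add_le_add_right (card_le_card h3) 1))
    rw [hr]
    linarith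

end Pool.Agent.Work.MP_db9399_sg.helper35
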