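import Pool.Agent.Work.MP_db9399_cg_helper35.ResG
import Pool.Agent.Work.MP_db9399_sg_helper75.AN2

/-! # SWG, block AN, one regular graph with given labels (helper35) -/

set_option autoImplicit false

namespace Pool.Agent.Work.MP_db9399_sg.helper35

open Finset Classical
open Pool.Agent.Work.MP_db9399_all (nb)
open Pool.Agent.Work.MP_db9399_cg
open Pool.Agent.Work.MP_db9399_cg.helper12 (row cdz_le cdg_nonneg)

universe u

/-- A5 with a bound on the number of edges of `S` which are not in `Z`. -/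
def Stmt_A5N : Prop :=
  ∀ (a : ℝ) (n2 : ℕ), 0 < a → a ≤ 1 / 100 → 16 ≤ n2 → ∃ (d0 m : ℕ), ∀ {V : Type u} [Fintype V]
    (G G1 : SimpleGraph V) (d f : ℕ) (κ : ℝ) (K : Finset V) (M : Bool → Finset V), d0 ≤ d →
    Reg G d → Lab G d a (1 / 64) (1 / n2) K M →
    (∀ v w, G1.Adj v w ↔ G.Adj v w ∧ ¬ (v ∈ K ∧ w ∈ K)) →
    (f : ℝ) + 1 / (2 * n2) = κ * d / 2 → (d : ℝ) ^ (-a) ≤ κ → κ ≤ (d : ℝ) ^ (-(a / 3)) →
    ∃ (θ x1 : V → V → ℝ) (h : Fin m → V → V → ℝ) (cc : V → ℝ), Edat G G1 d a κ θ x1 h cc ∧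
      ∀ O Z : V → V → Prop, (∀ v w, G1.Adj v w → (O v w ↔ ¬ O w v)) → (∀ v w, O v w → G1.Adj v w) →
        (∀ v w, Z v w → Z w v) → (∀ v w, Z v w → G1.Adj v w) →
        (∀ v, CoinV G1 d κ θ x1 h cc O Z v) →
        ∃ S : SimpleGraph V, S ≤ G1 ∧ (∀ v w, Z v w → S.Adj v w) ∧
          (∀ v, 2 * f ≤ (nb S v).card) ∧ (∀ v, (nb S v).card ≤ 2 * f + 1) ∧
          (∀ v, v ∉ M true ∪ M false → (nb S v).card = 2 * f) ∧
          (∀ v, ((nb S v ∩ (M true ∪ M false)).card : ℝ) ≤ 4 / n2 * (2 * f)) ∧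
          (∀ v, v ∉ K → (2 * f : ℝ) / 128 ≤ ((nb S v ∩ K).card : ℝ)) ∧
          (∀ v, (f : ℝ) ≤ ((nb S v \ K).card : ℝ)) ∧
          ∀ v, ((univ.filter fun w => S.Adj v w ∧ ¬ Z v w).card : ℝ) ≤ 2 / n2 * (2 * f)

/-- the reserve of a regular graph with given labels and `q` tests (sets of edges) -/
structure ResX {V : Type u} [Fintype V] (G S : SimpleGraph V) (d f q : ℕ) (a ρ0 MS : ℝ)
    (K Exc : Finset V) (X : Fin q → V → V → Prop) : Prop where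
  sub : S ≤ G
  rlo : (d : ℝ) ^ (1 - a) + 10 ≤ 2 * f
  rhi : (2 * f : ℝ) ≤ (d : ℝ) ^ (1 - a / 3)
  lo : ∀ v, 2 * f ≤ (nb S v).card
  hi : ∀ v, (nb S v).card ≤ 2 * f + 1
  off : ∀ v, v ∉ Exc → (nb S v).card = 2 * f
  exc : ∀ v, ((nb S v ∩ Exc).card : ℝ) ≤ ρ0 * (2 * f)
  K1 : ∀ v ∈ K, ∀ w ∈ K, ¬ S.Adj v w
  K2 : ∀ v, v ∉ K → (2 * f : ℝ) / 128 ≤ ((nb S v ∩ K).card : ℝ)
  K3 : ∀ v, (f : ℝ) ≤ ((nb S v \ K).card : ℝ)
  tst : ∀ j v (B : ℝ), 0 ≤ B → B ≤ 1 → (((nb G v).filter fun w => X j v w).card : ℝ) ≤ B * d →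
    (((nb S v).filter fun w => X j v w).card : ℝ) ≤ (2 * B + ρ0) * (2 * f)
  cmp : ∀ (u : V) (T : Finset V), u ∈ T → (T.card : ℝ) ≤ MS * d →
    1 / 20 * (∑ w ∈ univ \ T, cdg G u w / (d : ℝ) ^ 2) - 4 * (d : ℝ) ^ (-a) ≤
      ∑ w ∈ univ \ T, cdg S u w / (2 * (f : ℝ) + 1) ^ 2

/-- more numerics -/
theorem numX (a ρ0 : ℝ) (ha : 0 < a) (ha1 : a ≤ 1 / 100) (hρ : 0 < ρ0) :
    ∃ d0 : ℕ, ∀ (d f : ℕ) (κ : ℝ) (n2 : ℕ), d0 ≤ d → 16 ≤ n2 →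
      (f : ℝ) + 1 / (2 * n2) = κ * d / 2 → (d : ℝ) ^ (-a) ≤ κ →
      2 * (√(κ * d) * Real.log d) ≤ ρ0 / 4 * (2 * f) := by
  have h1 : Filter.Tendsto (fun d : ℕ => (d : ℝ) ^ (1 / 4 : ℝ)) Filter.atTop Filter.atTop :=
    (tendsto_rpow_atTop (by norm_num)).comp tendsto_natCast_atTop_atTop
  have hlog : ∀ᶠ d : ℕ in Filter.atTop, Real.log d ≤ (d : ℝ) ^ (1 / 8 : ℝ) := by
    have h := (isLittleO_log_rpow_atTop (show (0 : ℝ) < 1 / 8 by norm_num)).bound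
      (show (0 : ℝ) < 1 by norm_num)
    have h' := tendsto_natCast_atTop_atTop (R := ℝ) |>.eventually h
    filter_upwards [h', Filter.eventually_ge_atTop 1] with d hd hd1
    have : (1 : ℝ) ≤ d := by exact_mod_cast hd1
    rw [Real.norm_of_nonneg (Real.log_nonneg this),
      Real.norm_of_nonneg (Real.rpow_nonneg (by linarith) _), one_mul] at hd
    exact hd
  obtain ⟨d1, hd1⟩ := Filter.eventually_atTop.1 (hlog.and
    ((h1.eventually_ge_atTop (16 / ρ0)).and (Filter.eventually_ge_atTop 2)))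
  refine ⟨d1, fun d f κ n2 hd hn hf hκ => ?_⟩
  obtain ⟨l1, l2, l3⟩ := hd1 d hd
  have hdg : (2 : ℝ) ≤ d := by exact_mod_cast l3
  have hdp : (0 : ℝ) < d := by linarith
  have hdg1 : (1 : ℝ) ≤ d := by linarith
  have hn' : (16 : ℝ) ≤ n2 := by exact_mod_cast hn
  have hn3 : 1 / (2 * (n2 : ℝ)) ≤ 1 / 32 := one_div_le_one_div_of_le (by norm_num) (by linarith)
  set t : ℝ := κ * d with ht
  have hpa : (d : ℝ) ^ (-a) * d = (d : ℝ) ^ (1 - a) := by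
    nth_rewrite 2 [← Real.rpow_one (d : ℝ)]
    rw [← Real.rpow_add hdp]
    ring_nf
  have ht1 : (d : ℝ) ^ (1 - a) ≤ t := by
    rw [← hpa]
    exact mul_le_mul_of_nonneg_right hκ hdp.le
  have ht2 : (d : ℝ) ^ (3 / 4 : ℝ) ≤ t :=
    (Real.rpow_le_rpow_of_exponent_le hdg1 (by linarith)).trans ht1
  have ht3 : 1 ≤ t := (Real.one_le_rpow hdg1 (by norm_num)).trans ht2
  have hs1 : (d : ℝ) ^ (3 / 8 : ℝ) ≤ √t := by
    rw [← Real.sqrt_sq (Real.rpow_nonneg hdp.le (3 / 8))]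
    refine Real.sqrt_le_sqrt ?_
    rw [← Real.rpow_natCast, ← Real.rpow_mul hdp.le]
    norm_num
    exact ht2
  have hlogle : 16 * Real.log d ≤ ρ0 * √t := by
    have e1 : (d : ℝ) ^ (1 / 4 : ℝ) * (d : ℝ) ^ (1 / 8 : ℝ) = (d : ℝ) ^ (3 / 8 : ℝ) := by
      rw [← Real.rpow_add hdp]
      norm_num
    have e2 : 16 / ρ0 * Real.log d ≤ √t := by
      refine le_trans ?_ hs1
      rw [← e1]
      exact mul_le_mul l2 l1 (Real.log_nonneg hdg1) (Real.rpow_nonneg hdp.le _)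
    rw [div_mul_eq_mul_div, div_le_iff₀ hρ] at e2
    linarith
  have hst : √t * √t = t := Real.mul_self_sqrt (by linarith)
  have hs0 : 0 ≤ √t := Real.sqrt_nonneg _
  have e3 : √t * (16 * Real.log d) ≤ √t * (ρ0 * √t) := mul_le_mul_of_nonneg_left hlogle hs0
  have e4 : √t * (ρ0 * √t) = ρ0 * t := by
    calc √t * (ρ0 * √t) = ρ0 * (√t * √t) := by ring
      _ = ρ0 * t := by rw [hst]
  have e5 : (2 * f : ℝ) = t - 2 * (1 / (2 * (n2 : ℝ))) := by linarith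
  have e6 : t / 2 ≤ 2 * f := by rw [e5]; linarith
  have e7 : ρ0 * (t / 2) ≤ ρ0 * (2 * f) := mul_le_mul_of_nonneg_left e6 hρ.le
  nlinarith

section

variable {V : Type u} [Fintype V]

/-- the sum over both sides -/
theorem sum_sdz (G1 : SimpleGraph V) (O Z : V → V → Prop)
    (o1 : ∀ v w, G1.Adj v w → (O v w ↔ ¬ O w v)) (o2 : ∀ v w, O v w → G1.Adj v w)
    (z2 : ∀ v w, Z v w → G1.Adj v w) (v : V) (h : V → ℝ) :
    ∑ w ∈ sdz O Z true v, h w + ∑ w ∈ sdz O Z false v, h w =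
      ∑ w ∈ univ.filter (fun w => Z v w), h w := by
  rw [← sum_union]
  · apply sum_congr ?_ fun _ _ => rfl
    ext w
    simp only [sdz, sd, mem_union, mem_filter, mem_univ, true_and, if_true]
    constructor
    · rintro (⟨_, h1⟩ | ⟨_, h1⟩) <;> exact h1
    · intro h1
      by_cases ho : O v w
      · left; exact ⟨ho, h1⟩
      · right
        have : O w v := by
          by_contra hcon
          exact ho ((o1 v w (z2 v w h1)).mpr hcon)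
        exact ⟨by simpa using this, h1⟩
  · rw [Finset.disjoint_left]
    intro w h1 h2
    simp only [sdz, sd, mem_filter, mem_univ, true_and, if_true] at h1 h2
    have h3 : O w v := by simpa using h2.1
    exact (o1 v w (o2 v w h1.1)).mp h1.1 h3

/-- the test sets -/
theorem tst_of (G G1 S : SimpleGraph V) (d f : ℕ) (κ ρ0 : ℝ) (n2 : ℕ) (θ : V → V → ℝ)
    (O Z : V → V → Prop) (hf1 : 1 ≤ f) (hρ : 0 < ρ0)
    (o1 : ∀ v w, G1.Adj v w → (O v w ↔ ¬ O w v)) (o2 : ∀ v w, O v w → G1.Adj v w)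
    (z2 : ∀ v w, Z v w → G1.Adj v w) (hG : G1 ≤ G) (hκ : 0 < κ) (hθ : ∀ v w, θ v w ≤ 2 * κ)
    (hn : 4 / (n2 : ℝ) ≤ ρ0) (hn2 : (16 : ℝ) ≤ n2) (hf : (f : ℝ) + 1 / (2 * n2) = κ * d / 2)
    (hnum : 2 * (√(κ * d) * Real.log d) ≤ ρ0 / 4 * (2 * f)) (v : V) (X : Finset V)
    (hii : ∀ s, |∑ w ∈ sdz O Z s v, (if w ∈ X then (1 : ℝ) else 0) -
      (∑ w ∈ nb G1 v, θ v w * (if w ∈ X then (1 : ℝ) else 0)) / 2| ≤ √(κ * d) * Real.log d)
    (hSZ : ((univ.filter fun w => S.Adj v w ∧ ¬ Z v w).card : ℝ) ≤ 2 / n2 * (2 * f))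
    (B : ℝ) (hB1 : B ≤ 1) (hX : ((nb G v ∩ X).card : ℝ) ≤ B * d) :
    ((nb S v ∩ X).card : ℝ) ≤ (2 * B + ρ0) * (2 * f) := by
  have hf' : (1 : ℝ) ≤ f := by exact_mod_cast hf1
  have h1 : nb S v ∩ X ⊆ ((univ.filter fun w => Z v w) ∩ X) ∪
      (univ.filter fun w => S.Adj v w ∧ ¬ Z v w) := by
    intro w hw
    rw [mem_inter] at hw
    have h2 : S.Adj v w := by simpa [nb] using hw.1
    rw [mem_union, mem_inter, mem_filter, mem_filter]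
    by_cases hz : Z v w
    · left; exact ⟨⟨mem_univ _, hz⟩, hw.2⟩
    · right; exact ⟨mem_univ _, h2, hz⟩
  have h2 : ((nb S v ∩ X).card : ℝ) ≤ (((univ.filter fun w => Z v w) ∩ X).card : ℝ) +
      ((univ.filter fun w => S.Adj v w ∧ ¬ Z v w).card : ℝ) := by
    exact_mod_cast (card_le_card h1).trans (card_union_le _ _)
  have h3 : (((univ.filter fun w => Z v w) ∩ X).card : ℝ) =
      ∑ w ∈ univ.filter (fun w => Z v w), (if w ∈ X then (1 : ℝ) else 0) := by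
    rw [← sum_filter, sum_const, nsmul_eq_mul, mul_one]
    congr 2
  have h4 := sum_sdz G1 O Z o1 o2 z2 v fun w => if w ∈ X then (1 : ℝ) else 0
  have h5 := (abs_le.1 (hii true)).2
  have h6 := (abs_le.1 (hii false)).2
  have h7 : ∑ w ∈ nb G1 v, θ v w * (if w ∈ X then (1 : ℝ) else 0) ≤ 2 * κ * (B * d) := by
    calc ∑ w ∈ nb G1 v, θ v w * (if w ∈ X then (1 : ℝ) else 0)
        ≤ ∑ w ∈ nb G1 v, 2 * κ * (if w ∈ X then (1 : ℝ) else 0) := by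
          refine sum_le_sum fun w _ => mul_le_mul_of_nonneg_right (hθ v w) ?_
          split_ifs <;> norm_num
      _ = 2 * κ * ((nb G1 v ∩ X).card : ℝ) := by
          rw [← mul_sum, ← sum_filter, sum_const, nsmul_eq_mul, mul_one]
          congr 3
      _ ≤ 2 * κ * ((nb G v ∩ X).card : ℝ) := by
          refine mul_le_mul_of_nonneg_left ?_ (by positivity)
          exact_mod_cast card_le_card (inter_subset_inter_right fun w hw => by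
            simp only [nb, mem_filter, mem_univ, true_and] at hw ⊢
            exact hG hw)
      _ ≤ 2 * κ * (B * d) := mul_le_mul_of_nonneg_left hX (by positivity)
  have hn0 : (0 : ℝ) < n2 := by linarith
  have h8 : 2 / (n2 : ℝ) ≤ ρ0 / 2 := by
    have : 2 / (n2 : ℝ) = 4 / n2 / 2 := by ring
    rw [this]
    linarith
  have h9 : 2 / (n2 : ℝ) * (2 * f) ≤ ρ0 / 2 * (2 * f) :=
    mul_le_mul_of_nonneg_right h8 (by positivity)
  have h10 : κ * d = 2 * f + 1 / n2 := by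
    have : 1 / (n2 : ℝ) = 2 * (1 / (2 * n2)) := by field_simp
    rw [this]
    linarith
  have h11 : 2 * κ * (B * d) = 2 * B * (2 * f) + B * (2 / n2) := by
    have : 2 * κ * (B * d) = 2 * B * (κ * d) := by ring
    rw [this, h10]
    ring
  have h12 : B * (2 / (n2 : ℝ)) ≤ ρ0 / 4 * (2 * f) := by
    have e1 : B * (2 / (n2 : ℝ)) ≤ 1 * (ρ0 / 2) :=
      mul_le_mul hB1 h8 (by positivity) zero_le_one
    have e2 : ρ0 / 4 * (2 * 1) ≤ ρ0 / 4 * (2 * (f : ℝ)) := by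
      refine mul_le_mul_of_nonneg_left ?_ (by positivity)
      linarith
    linarith
  rw [h3, ← h4] at h2
  linarith

end

/-- numerics: `f` is given -/
theorem num8 (a : ℝ) (n2 : ℕ) (ha : 0 < a) (ha1 : a ≤ 1 / 100) (hn : 16 ≤ n2) (MS : ℝ) :
    ∃ d0 : ℕ, ∀ d f : ℕ, d0 ≤ d → 2 * (d : ℝ) ^ (1 - a) + 1 ≤ 2 * f →
      (2 * f : ℝ) + 1 ≤ (d : ℝ) ^ (1 - a / 3) → ∃ κ : ℝ, 1 ≤ d ∧ 1 ≤ f ∧
      (f : ℝ) + 1 / (2 * n2) = κ * d / 2 ∧ (d : ℝ) ^ (-a) ≤ κ ∧ κ ≤ (d : ℝ) ^ (-(a / 3)) ∧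
      (d : ℝ) ^ (1 - a) + 10 ≤ 2 * f ∧ (2 * f : ℝ) ≤ (d : ℝ) ^ (1 - a / 3) ∧
      (2 * (f : ℝ) + 1) ^ 2 ≤ 5 / 4 * (κ ^ 2 * (d : ℝ) ^ 2) ∧
      κ ^ 2 * (d : ℝ) ^ 2 ≤ (2 * (f : ℝ) + 1) ^ 2 ∧
      (d : ℝ) ^ (8 / 5 : ℝ) ≤ (d : ℝ) ^ (2 - a) ∧
      MS * d * (d : ℝ) ^ (3 * a) ≤ κ ^ 2 * (d : ℝ) ^ (2 - a) := by
  have h2 : Filter.Tendsto (fun d : ℕ => (d : ℝ) ^ (1 - a)) Filter.atTop Filter.atTop :=
    (tendsto_rpow_atTop (by linarith)).comp tendsto_natCast_atTop_atTop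
  have h3 : Filter.Tendsto (fun d : ℕ => (d : ℝ) ^ (1 / 2 : ℝ)) Filter.atTop Filter.atTop :=
    (tendsto_rpow_atTop (by norm_num)).comp tendsto_natCast_atTop_atTop
  obtain ⟨d1, hd1⟩ := Filter.eventually_atTop.1
    ((h2.eventually_ge_atTop 40).and ((h3.eventually_ge_atTop MS).and
      (Filter.eventually_ge_atTop 2)))
  refine ⟨d1, fun d f hd hfa hfb => ?_⟩
  obtain ⟨l2, l3, l4⟩ := hd1 d hd
  have hdg : (2 : ℝ) ≤ d := by exact_mod_cast l4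
  have hdp : (0 : ℝ) < d := by linarith
  have hdg1 : (1 : ℝ) ≤ d := by linarith
  have hn' : (16 : ℝ) ≤ n2 := by exact_mod_cast hn
  have hf3 : (20 : ℝ) ≤ f := by linarith
  have hfN : 1 ≤ f := by
    have : (1 : ℝ) ≤ f := by linarith
    exact_mod_cast this
  have hn3 : 1 / (2 * (n2 : ℝ)) ≤ 1 / 32 := one_div_le_one_div_of_le (by norm_num) (by linarith)
  have hn4 : 0 < 1 / (2 * (n2 : ℝ)) := by positivity
  set κ : ℝ := 2 * ((f : ℝ) + 1 / (2 * n2)) / d with hκ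
  have hκd : κ * d = 2 * ((f : ℝ) + 1 / (2 * n2)) := by
    rw [hκ]
    field_simp
  have hκd0 : κ * d / 2 = (f : ℝ) + 1 / (2 * n2) := by rw [hκd]; ring
  have hpa : (d : ℝ) ^ (-a) * d = (d : ℝ) ^ (1 - a) := by
    nth_rewrite 2 [← Real.rpow_one (d : ℝ)]
    rw [← Real.rpow_add hdp]
    ring_nf
  have hpa3 : (d : ℝ) ^ (-(a / 3)) * d = (d : ℝ) ^ (1 - a / 3) := by
    nth_rewrite 2 [← Real.rpow_one (d : ℝ)]
    rw [← Real.rpow_add hdp]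
    ring_nf
  have hκ1 : (d : ℝ) ^ (-a) ≤ κ := by
    rw [← mul_le_mul_iff_of_pos_right hdp, hpa, hκd]
    linarith
  have hκ2 : κ ≤ (d : ℝ) ^ (-(a / 3)) := by
    rw [← mul_le_mul_iff_of_pos_right hdp, hpa3, hκd]
    linarith
  have hsq : κ ^ 2 * (d : ℝ) ^ 2 = (2 * ((f : ℝ) + 1 / (2 * n2))) ^ 2 := by
    rw [← mul_pow, hκd]
  refine ⟨κ, by omega, hfN, hκd0.symm, hκ1, hκ2, ?_, ?_, ?_, ?_, ?_, ?_⟩
  · linarith
  · linarith
  · rw [hsq]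
    nlinarith
  · rw [hsq]
    refine pow_le_pow_left₀ (by positivity) ?_ 2
    linarith
  · exact Real.rpow_le_rpow_of_exponent_le hdg1 (by linarith)
  · have h2 : (d : ℝ) ^ (1 / 2 : ℝ) * d * (d : ℝ) ^ (3 * a) =
        (d : ℝ) ^ (1 / 2 + 1 + 3 * a : ℝ) := by
      rw [Real.rpow_add hdp, Real.rpow_add hdp, Real.rpow_one]
    have h3 : ((d : ℝ) ^ (-a)) ^ 2 * (d : ℝ) ^ (2 - a) = (d : ℝ) ^ (-a + -a + (2 - a)) := by
      rw [Real.rpow_add hdp, Real.rpow_add hdp, sq]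
    have h4 : (d : ℝ) ^ (1 / 2 + 1 + 3 * a : ℝ) ≤ (d : ℝ) ^ (-a + -a + (2 - a)) :=
      Real.rpow_le_rpow_of_exponent_le hdg1 (by linarith)
    have h5 : ((d : ℝ) ^ (-a)) ^ 2 ≤ κ ^ 2 :=
      pow_le_pow_left₀ (Real.rpow_nonneg hdp.le _) hκ1 2
    calc MS * d * (d : ℝ) ^ (3 * a) ≤ (d : ℝ) ^ (1 / 2 : ℝ) * d * (d : ℝ) ^ (3 * a) := by
          refine mul_le_mul_of_nonneg_right ?_ (Real.rpow_nonneg hdp.le _)
          exact mul_le_mul_of_nonneg_right l3 hdp.le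
      _ = (d : ℝ) ^ (1 / 2 + 1 + 3 * a : ℝ) := h2
      _ ≤ (d : ℝ) ^ (-a + -a + (2 - a)) := h4
      _ = ((d : ℝ) ^ (-a)) ^ 2 * (d : ℝ) ^ (2 - a) := h3.symm
      _ ≤ κ ^ 2 * (d : ℝ) ^ (2 - a) :=
          mul_le_mul_of_nonneg_right h5 (Real.rpow_nonneg hdp.le _)

/-- one regular graph with given labels -/
theorem resX (hA34 : Stmt_A34.{u}) (hA5 : Stmt_A5N.{u}) (a ρ0 MS : ℝ) (q : ℕ) (ha : 0 < a)
    (ha1 : a ≤ 1 / 100) (hρ : 0 < ρ0) :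
    ∃ (n2 d0 : ℕ), 4 ≤ n2 ∧ ∀ {V : Type u} [Fintype V] (G : SimpleGraph V) (d f : ℕ)
      (K : Finset V) (M : Bool → Finset V) (X : Fin q → V → V → Prop), d0 ≤ d → Reg G d →
      2 * (d : ℝ) ^ (1 - a) + 1 ≤ 2 * f → (2 * f : ℝ) + 1 ≤ (d : ℝ) ^ (1 - a / 3) →
      Lab G d a (1 / 64) (1 / n2) K M →
      ∃ S : SimpleGraph V, ResX G S d f q a ρ0 MS K (M true ∪ M false) X := by
  set n2 : ℕ := max 16 ⌈4 / ρ0⌉₊ with hn2
  have hn16 : 16 ≤ n2 := le_max_left _ _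
  have hn16' : (16 : ℝ) ≤ n2 := by exact_mod_cast hn16
  have hnρ : 4 / (n2 : ℝ) ≤ ρ0 := by
    have h1 : 4 / ρ0 ≤ (n2 : ℝ) :=
      (Nat.le_ceil _).trans (by exact_mod_cast le_max_right 16 ⌈4 / ρ0⌉₊)
    have h2 : (0 : ℝ) < n2 := by linarith
    rw [div_le_iff₀ hρ] at h1
    rw [div_le_iff₀ h2]
    linarith
  obtain ⟨d5, m, H5⟩ := hA5 a n2 ha ha1 hn16
  obtain ⟨d3, H3⟩ := helper75.a34x hA34 a m q ha ha1
  obtain ⟨d7, H7⟩ := num8 a n2 ha ha1 hn16 MS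
  obtain ⟨d8, H8⟩ := numX a ρ0 ha ha1 hρ
  refine ⟨n2, max (max d8 d5) (max d3 d7), by omega, ?_⟩
  intro V _ G d f K M X hd hreg hfa hfb hLab
  have hd8 : d8 ≤ d := le_trans (by simp) hd
  have hd5 : d5 ≤ d := le_trans (by simp) hd
  have hd3 : d3 ≤ d := le_trans (by simp) hd
  have hd7 : d7 ≤ d := le_trans (by simp) hd
  obtain ⟨κ, hdd, hf1, hfκ, hκ1, hκ2, hr1, hr2, hs1, hs2, hp1, hp3⟩ := H7 d f hd7 hfa hfb
  have hnum := H8 d f κ n2 hd8 hn16 hfκ hκ1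
  have hdp : (0 : ℝ) < d := by exact_mod_cast hdd
  let G1 : SimpleGraph V :=
    { Adj := fun v w => G.Adj v w ∧ ¬ (v ∈ K ∧ w ∈ K)
      symm := ⟨fun v w h => ⟨h.1.symm, fun h' => h.2 ⟨h'.2, h'.1⟩⟩⟩
      loopless := ⟨fun v h => G.loopless.irrefl v h.1⟩ }
  have hG1 : ∀ v w, G1.Adj v w ↔ G.Adj v w ∧ ¬ (v ∈ K ∧ w ∈ K) := fun v w => Iff.rfl
  have hG1G : G1 ≤ G := fun v w h => h.1
  obtain ⟨θ, x1, h, cc, hE, hS⟩ := H5 G G1 d f κ K M hd5 hreg hLab hG1 hfκ hκ1 hκ2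
  obtain ⟨O, Z, o1, o2, z1, z2, cV, cP, -, cX⟩ := H3 G G1 d κ θ x1 h cc
    (fun j v w => if w ∈ univ.filter (fun w => X j v w) then (1 : ℝ) else 0) hd3 hE
    (fun j v w => by split_ifs <;> norm_num)
    (fun j v w => by split_ifs <;> norm_num)
  obtain ⟨S, s1, s2, s3, s4, s5, s6, s7, s8, s9⟩ := hS O Z o1 o2 z1 z2 cV
  have hκ0 : 0 < κ := (Real.rpow_pos_of_pos hdp _).trans_le hκ1
  refine ⟨S, fun v w hvw => (s1 hvw).1, hr1, hr2, s3, s4, s5, ?_, ?_, s7, s8, ?_, ?_⟩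
  · intro v
    exact (s6 v).trans (mul_le_mul_of_nonneg_right hnρ (by positivity))
  · intro v hv w hw hvw
    exact (s1 hvw).2 ⟨hv, hw⟩
  · intro j v B _ hB1 hX
    have e1 : ∀ Y : Finset V, Y.filter (fun w => X j v w) = Y ∩ univ.filter fun w => X j v w := by
      intro Y
      ext w
      simp
    rw [e1] at hX ⊢
    exact tst_of G G1 S d f κ ρ0 n2 θ O Z hf1 hρ o1 o2 z2 hG1G hκ0 hE.th2 hnρ hn16' hfκ hnum v
      (univ.filter fun w => X j v w) (fun s => cX j s v) (s9 v) B hB1 hX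
  · intro u T hu hT
    have h1 := row G G1 d a κ (1 / n2) (1 / 64) K M Z hLab hG1 z2 u (cP u) T hu
    have h2 : ∑ w ∈ univ \ T, cdz Z u w ≤ ∑ w ∈ univ \ T, cdg S u w :=
      sum_le_sum fun w _ => cdz_le S Z s2 u w
    have h3 : (T.card : ℝ) * (d : ℝ) ^ (3 * a) ≤ κ ^ 2 * (d : ℝ) ^ (2 - a) :=
      (mul_le_mul_of_nonneg_right hT (Real.rpow_nonneg hdp.le _)).trans hp3
    have h4 : κ ^ 2 * ((d : ℝ) ^ (8 / 5 : ℝ) / 8 + (d : ℝ) ^ (2 - a)) ≤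
        κ ^ 2 * (2 * (d : ℝ) ^ (2 - a)) := by
      refine mul_le_mul_of_nonneg_left ?_ (by positivity)
      have : 0 ≤ (d : ℝ) ^ (8 / 5 : ℝ) := Real.rpow_nonneg hdp.le _
      linarith
    set A : ℝ := ∑ w ∈ univ \ T, cdg G u w with hA
    set B : ℝ := ∑ w ∈ univ \ T, cdg S u w with hB
    have hA0 : 0 ≤ A := sum_nonneg fun w _ => cdg_nonneg G u w
    have h5 : κ ^ 2 / 16 * A - 3 * (κ ^ 2 * (d : ℝ) ^ (2 - a)) ≤ B := by linarith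
    have e1 : ∑ w ∈ univ \ T, cdg G u w / (d : ℝ) ^ 2 = A / (d : ℝ) ^ 2 := by
      rw [hA, sum_div]
    have e2 : ∑ w ∈ univ \ T, cdg S u w / (2 * (f : ℝ) + 1) ^ 2 =
        B / (2 * (f : ℝ) + 1) ^ 2 := by
      rw [hB, sum_div]
    rw [e1, e2]
    set Q : ℝ := (2 * (f : ℝ) + 1) ^ 2 with hQ
    have hQ0 : 0 < Q := by positivity
    have hκd : 0 < κ ^ 2 * (d : ℝ) ^ 2 := by positivity
    have e3 : (d : ℝ) ^ (2 - a) = (d : ℝ) ^ 2 * (d : ℝ) ^ (-a) := by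
      rw [sub_eq_add_neg, Real.rpow_add hdp]
      norm_num
    have hna : 0 < (d : ℝ) ^ (-a) := Real.rpow_pos_of_pos hdp _
    rw [le_div_iff₀ hQ0]
    have e4 : (1 / 20 * (A / (d : ℝ) ^ 2) - 4 * (d : ℝ) ^ (-a)) * Q ≤
        κ ^ 2 / 16 * A - 3 * (κ ^ 2 * (d : ℝ) ^ (2 - a)) := by
      have e5 : 1 / 20 * (A / (d : ℝ) ^ 2) * Q ≤ κ ^ 2 / 16 * A := by
        have : 1 / 20 * (A / (d : ℝ) ^ 2) * Q ≤
            1 / 20 * (A / (d : ℝ) ^ 2) * (5 / 4 * (κ ^ 2 * (d : ℝ) ^ 2)) :=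
          mul_le_mul_of_nonneg_left hs1 (by positivity)
        refine this.trans (le_of_eq ?_)
        field_simp
        ring
      have e6 : 3 * (κ ^ 2 * (d : ℝ) ^ (2 - a)) ≤ 4 * (d : ℝ) ^ (-a) * Q := by
        rw [e3]
        have : κ ^ 2 * (d : ℝ) ^ 2 * (d : ℝ) ^ (-a) ≤ Q * (d : ℝ) ^ (-a) :=
          mul_le_mul_of_nonneg_right hs2 hna.le
        nlinarith
      linarith
    exact e4.trans h5

end Pool.Agent.Work.MP_db9399_sg.helper35
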