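import Pool.Agent.Work.MP_db9399_sg_helper35.AX
import Pool.Agent.Work.MP_db9399_sg.Interface

/-! # SWG, block AN: the doubled graph and the restriction of the reserve (helper35) -/

set_option autoImplicit false

namespace Pool.Agent.Work.MP_db9399_sg.helper35

open Finset Classical
open Pool.Agent.Work.MP_db9399_all (nb)
open Pool.Agent.Work.MP_db9399_cg

universe u

attribute [-instance] Subtype.instDecidableEq

section

variable {V : Type u} [Fintype V]

/-- the vertices of the doubled graph -/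
abbrev DV (A : Finset V) : Type u := {x : V × Bool // x.1 ∈ A}

/-- two copies of `Gh`, joined at the vertices of degree `D - 1` -/
def dbl (Gh : SimpleGraph V) (A : Finset V) (D : ℕ) : SimpleGraph (DV A) where
  Adj x y := (x.1.2 = y.1.2 ∧ Gh.Adj x.1.1 y.1.1) ∨
    (x.1.1 = y.1.1 ∧ x.1.2 ≠ y.1.2 ∧ (nb Gh x.1.1).card + 1 = D)
  symm := ⟨fun x y h => by
    rcases h with ⟨h1, h2⟩ | ⟨h1, h2, h3⟩
    · exact Or.inl ⟨h1.symm, h2.symm⟩
    · exact Or.inr ⟨h1.symm, h2.symm, h1 ▸ h3⟩⟩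
  loopless := ⟨fun x h => by
    rcases h with ⟨_, h2⟩ | ⟨_, h2, _⟩
    · exact Gh.loopless.irrefl _ h2
    · exact h2 rfl⟩

/-- a copy of a set -/
noncomputable def cop (A : Finset V) (s : Bool) (T : Finset V) : Finset (DV A) :=
  univ.filter fun x => x.1.1 ∈ T ∧ x.1.2 = s

theorem mem_nb {G : SimpleGraph V} {v w : V} : w ∈ nb G v ↔ G.Adj v w := by simp [nb]

theorem card_cop (A : Finset V) (s : Bool) (T : Finset V) :
    (cop A s T).card = (T ∩ A).card := by
  refine card_bij' (fun x _ => x.1.1) (fun v hv => ⟨(v, s), (mem_inter.1 hv).2⟩) ?_ ?_ ?_ ?_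
  · intro x hx
    rw [cop, mem_filter] at hx
    exact mem_inter.2 ⟨hx.2.1, x.2⟩
  · intro v hv
    rw [cop, mem_filter]
    exact ⟨mem_univ _, (mem_inter.1 hv).1, rfl⟩
  · intro x hx
    rw [cop, mem_filter] at hx
    apply Subtype.ext
    exact Prod.ext rfl hx.2.2.symm
  · intro v hv
    rfl

end

section

variable {V : Type u} [Fintype V] (Gh : SimpleGraph V) (A : Finset V) (D : ℕ)

/-- neighbours in the doubled graph -/
theorem nb_dbl (hA : ∀ v w, Gh.Adj v w → w ∈ A) (x : DV A) :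
    nb (dbl Gh A D) x = cop A x.1.2 (nb Gh x.1.1) ∪
      (if (nb Gh x.1.1).card + 1 = D then {⟨(x.1.1, !x.1.2), x.2⟩} else ∅) := by
  ext y
  rw [mem_nb, mem_union, cop, mem_filter]
  constructor
  · rintro (⟨h1, h2⟩ | ⟨h1, h2, h3⟩)
    · exact Or.inl ⟨mem_univ _, mem_nb.2 h2, h1.symm⟩
    · right
      rw [if_pos h3, mem_singleton]
      apply Subtype.ext
      refine Prod.ext h1.symm ?_
      have : ∀ s t : Bool, s ≠ t → t = !s := by decide
      exact this _ _ h2
  · rintro (⟨_, h1, h2⟩ | h)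
    · exact Or.inl ⟨h2.symm, mem_nb.1 h1⟩
    · split_ifs at h with h3
      · rw [mem_singleton] at h
        subst h
        refine Or.inr ⟨rfl, ?_, h3⟩
        have : ∀ s : Bool, s ≠ !s := by decide
        exact this _
      · simp at h

/-- the doubled graph is regular -/
theorem reg_dbl (hA : ∀ v w, Gh.Adj v w → w ∈ A)
    (hD : ∀ v ∈ A, (nb Gh v).card ≤ D ∧ D ≤ (nb Gh v).card + 1) : Reg (dbl Gh A D) D := by
  intro x
  rw [nb_dbl Gh A D hA x, card_union_of_disjoint, card_cop]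
  · have h1 : nb Gh x.1.1 ∩ A = nb Gh x.1.1 :=
      inter_eq_left.2 fun w hw => hA _ _ (mem_nb.1 hw)
    rw [h1]
    have h2 := hD x.1.1 x.2
    split_ifs with h3
    · simpa using h3
    · simp only [card_empty, add_zero]
      omega
  · rw [Finset.disjoint_left]
    intro y hy hy'
    split_ifs at hy' with h3
    · rw [mem_singleton] at hy'
      subst hy'
      rw [cop, mem_filter] at hy
      have : ∀ s : Bool, (!s) ≠ s := by decide
      exact this _ hy.2.2
    · simp at hy'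

variable {Gh A D}

theorem dbl_ff {x y : DV A} (h : (dbl Gh A D).Adj x y) (h1 : x.1.2 = y.1.2) :
    Gh.Adj x.1.1 y.1.1 := by
  rcases h with ⟨_, h2⟩ | ⟨_, h2, _⟩
  · exact h2
  · exact absurd h1 h2

theorem dbl_ft {x y : DV A} (h : (dbl Gh A D).Adj x y) (h1 : x.1.2 ≠ y.1.2) :
    x.1.1 = y.1.1 ∧ (nb Gh x.1.1).card + 1 = D := by
  rcases h with ⟨h2, _⟩ | ⟨h3, _, h4⟩
  · exact absurd h2 h1
  · exact ⟨h3, h4⟩

/-- restriction to the copy `false` -/
def rst (A : Finset V) (S2 : SimpleGraph (DV A)) : SimpleGraph V where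
  Adj v w := ∃ (hv : v ∈ A) (hw : w ∈ A), S2.Adj ⟨(v, false), hv⟩ ⟨(w, false), hw⟩
  symm := ⟨fun v w h => by
    obtain ⟨hv, hw, h⟩ := h
    exact ⟨hw, hv, h.symm⟩⟩
  loopless := ⟨fun v h => by
    obtain ⟨hv, hw, h⟩ := h
    exact S2.loopless.irrefl _ h⟩

variable {S2 : SimpleGraph (DV A)}

theorem rst_le (hS : S2 ≤ dbl Gh A D) : rst A S2 ≤ Gh := by
  intro v w h
  obtain ⟨hv, hw, h⟩ := h
  exact dbl_ff (hS h) rfl

/-- neighbours in a set -/
theorem card_rst (v : V) (hv : v ∈ A) (X : Finset V) :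
    (nb (rst A S2) v ∩ X).card = (nb S2 ⟨(v, false), hv⟩ ∩ cop A false X).card := by
  refine card_bij' (i := fun w hw => (⟨(w, false), (mem_nb.1 (mem_inter.1 hw).1).2.1⟩ : DV A))
    (j := fun x _ => x.1.1) ?_ ?_ ?_ ?_
  · intro w hw
    rw [mem_inter] at hw ⊢
    obtain ⟨hv', hw', h⟩ := mem_nb.1 hw.1
    refine ⟨mem_nb.2 h, ?_⟩
    rw [cop, mem_filter]
    exact ⟨mem_univ _, hw.2, rfl⟩
  · intro x hx
    rw [mem_inter, cop, mem_filter] at hx
    rw [mem_inter]
    refine ⟨mem_nb.2 ⟨hv, x.2, ?_⟩, hx.2.2.1⟩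
    have h1 : x = ⟨(x.1.1, false), x.2⟩ := by
      apply Subtype.ext
      exact Prod.ext rfl hx.2.2.2
    rw [← h1]
    exact mem_nb.1 hx.1
  · intro w hw
    rfl
  · intro x hx
    rw [mem_inter, cop, mem_filter] at hx
    apply Subtype.ext
    exact Prod.ext rfl hx.2.2.2.symm

/-- at most one neighbour in the other copy -/
theorem card_oth (hS : S2 ≤ dbl Gh A D) (x : DV A) (X : Finset (DV A)) :
    ((nb S2 x ∩ X).filter fun y => y.1.2 ≠ x.1.2).card ≤ 1 := by
  rw [card_le_one]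
  intro y hy z hz
  rw [mem_filter, mem_inter] at hy hz
  have h1 := dbl_ft (hS (mem_nb.1 hy.1.1)) hy.2.symm
  have h2 := dbl_ft (hS (mem_nb.1 hz.1.1)) hz.2.symm
  apply Subtype.ext
  refine Prod.ext (h1.1.symm.trans h2.1) ?_
  have : ∀ s t r : Bool, s ≠ r → t ≠ r → s = t := by decide
  exact this _ _ _ hy.2 hz.2

/-- the degrees drop by at most one -/
theorem card_rst' (hS : S2 ≤ dbl Gh A D) (v : V) (hv : v ∈ A) (X : Finset (DV A)) :
    (nb S2 ⟨(v, false), hv⟩ ∩ X).card ≤
      ((nb (rst A S2) v).filter fun w => ∃ hw : w ∈ A, (⟨(w, false), hw⟩ : DV A) ∈ X).card + 1 := by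
  have h1 := card_filter_add_card_filter_not (s := nb S2 ⟨(v, false), hv⟩ ∩ X)
    (p := fun y => y.1.2 = false)
  have h2 := card_oth hS ⟨(v, false), hv⟩ X
  have h3 : ((nb S2 ⟨(v, false), hv⟩ ∩ X).filter fun y => y.1.2 = false).card ≤
      ((nb (rst A S2) v).filter fun w => ∃ hw : w ∈ A, (⟨(w, false), hw⟩ : DV A) ∈ X).card := by
    refine card_le_card_of_injOn (fun x => x.1.1) ?_ ?_
    · intro x hx
      have hx' := hx
      rw [mem_coe, mem_filter, mem_inter] at hx'
      have h4 : x = ⟨(x.1.1, false), x.2⟩ := by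
        apply Subtype.ext
        exact Prod.ext rfl hx'.2
      rw [mem_coe, mem_filter]
      refine ⟨mem_nb.2 ⟨hv, x.2, ?_⟩, x.2, ?_⟩
      · rw [← h4]
        exact mem_nb.1 hx'.1.1
      · rw [← h4]
        exact hx'.1.2
    · intro x hx y hy hxy
      have hx' := hx
      have hy' := hy
      rw [mem_coe, mem_filter] at hx' hy'
      apply Subtype.ext
      exact Prod.ext hxy (hx'.2.trans hy'.2.symm)
  have h4 : ((nb S2 ⟨(v, false), hv⟩ ∩ X).filter fun y => ¬ y.1.2 = false).card ≤ 1 := h2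
  omega

/-- no twin edge: the degree is the same -/
theorem card_rst_eq (hS : S2 ≤ dbl Gh A D) (v : V) (hv : v ∈ A)
    (hD : (nb Gh v).card + 1 ≠ D) :
    (nb (rst A S2) v).card = (nb S2 ⟨(v, false), hv⟩).card := by
  have h1 := card_rst (S2 := S2) v hv univ
  rw [inter_univ] at h1
  rw [h1]
  congr 1
  rw [inter_eq_left]
  intro x hx
  rw [cop, mem_filter]
  refine ⟨mem_univ _, mem_univ _, ?_⟩
  by_contra hcon
  have h2 := dbl_ft (hS (mem_nb.1 hx)) (fun h => hcon h.symm)
  exact hD h2.2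

theorem card_rst_le (v : V) (hv : v ∈ A) :
    (nb (rst A S2) v).card ≤ (nb S2 ⟨(v, false), hv⟩).card := by
  have h1 := card_rst (S2 := S2) v hv univ
  rw [inter_univ] at h1
  rw [h1]
  exact card_le_card inter_subset_left

/-- codegrees -/
theorem cdg_rst (hS : S2 ≤ dbl Gh A D) (u w : V) (hu : u ∈ A) (hw : w ∈ A) (huw : u ≠ w) :
    cdg S2 ⟨(u, false), hu⟩ ⟨(w, false), hw⟩ ≤ cdg (rst A S2) u w := by
  unfold cdg
  have h : (nb S2 ⟨(u, false), hu⟩ ∩ nb S2 ⟨(w, false), hw⟩).card ≤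
      (nb (rst A S2) u ∩ nb (rst A S2) w).card := by
    have hf : ∀ x ∈ nb S2 ⟨(u, false), hu⟩ ∩ nb S2 ⟨(w, false), hw⟩,
        x = (⟨(x.1.1, false), x.2⟩ : DV A) := by
      intro x hx
      rw [mem_inter] at hx
      apply Subtype.ext
      refine Prod.ext rfl ?_
      by_contra hcon
      have h1 := dbl_ft (hS (mem_nb.1 hx.1)) (fun h => hcon h.symm)
      have h2 := dbl_ft (hS (mem_nb.1 hx.2)) (fun h => hcon h.symm)
      exact huw (h1.1.trans h2.1.symm)
    refine card_le_card_of_injOn (fun x => x.1.1) ?_ ?_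
    · intro x hx
      have h4 := hf x hx
      have hx' := hx
      rw [mem_coe, mem_inter] at hx'
      rw [mem_coe, mem_inter]
      refine ⟨mem_nb.2 ⟨hu, x.2, ?_⟩, mem_nb.2 ⟨hw, x.2, ?_⟩⟩
      · rw [← h4]
        exact mem_nb.1 hx'.1
      · rw [← h4]
        exact mem_nb.1 hx'.2
    · intro x hx y hy hxy
      have h1 := hf x hx
      have h2 := hf y hy
      rw [h1, h2]
      apply Subtype.ext
      exact Prod.ext hxy rfl
  exact_mod_cast h

/-- codegrees of `Gh` -/
theorem cdg_dbl (hA : ∀ v w, Gh.Adj v w → w ∈ A) (u w : V) (hu : u ∈ A) (hw : w ∈ A) :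
    cdg Gh u w ≤ cdg (dbl Gh A D) ⟨(u, false), hu⟩ ⟨(w, false), hw⟩ := by
  unfold cdg
  have h : (nb Gh u ∩ nb Gh w).card ≤
      (nb (dbl Gh A D) ⟨(u, false), hu⟩ ∩ nb (dbl Gh A D) ⟨(w, false), hw⟩).card := by
    have hA' : ∀ y ∈ nb Gh u ∩ nb Gh w, y ∈ A := fun y hy =>
      hA _ _ (mem_nb.1 (mem_inter.1 hy).1)
    refine card_le_card_of_injOn (fun y => if hy : y ∈ A then ⟨(y, false), hy⟩ else
      ⟨(u, false), hu⟩) ?_ ?_
    · intro y hy
      have h1 := hA' y hy
      have hy' := hy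
      rw [mem_coe, mem_inter] at hy'
      dsimp only
      rw [dif_pos h1, mem_coe, mem_inter]
      exact ⟨mem_nb.2 (Or.inl ⟨rfl, mem_nb.1 hy'.1⟩), mem_nb.2 (Or.inl ⟨rfl, mem_nb.1 hy'.2⟩)⟩
    · intro y hy z hz hyz
      have h1 := hA' y hy
      have h2 := hA' z hz
      dsimp only at hyz
      rw [dif_pos h1, dif_pos h2] at hyz
      have := congrArg (fun x : DV A => x.1.1) hyz
      exact this
  exact_mod_cast h

/-- double counting of codegrees -/
theorem sum_cdg {W : Type u} [Fintype W] (S : SimpleGraph W) (u : W) (C : Finset W) :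
    ∑ x ∈ C, cdg S u x = ∑ y ∈ nb S u, ((nb S y ∩ C).card : ℝ) := by
  unfold cdg
  have h1 : ∀ x, ((nb S u ∩ nb S x).card : ℝ) = ∑ y ∈ nb S u, if S.Adj y x then (1 : ℝ) else 0 := by
    intro x
    rw [← sum_filter, sum_const, nsmul_eq_mul, mul_one]
    congr 2
    ext y
    simp only [mem_inter, mem_filter, mem_nb]
    constructor
    · rintro ⟨h1, h2⟩; exact ⟨h1, h2.symm⟩
    · rintro ⟨h1, h2⟩; exact ⟨h1, h2.symm⟩
  have h2 : ∀ y, ((nb S y ∩ C).card : ℝ) = ∑ x ∈ C, if S.Adj y x then (1 : ℝ) else 0 := by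
    intro y
    rw [← sum_filter, sum_const, nsmul_eq_mul, mul_one]
    congr 2
    ext x
    simp only [mem_inter, mem_filter, mem_nb]
    tauto
  rw [sum_congr rfl fun x _ => h1 x, sum_comm]
  exact sum_congr rfl fun y _ => (h2 y).symm

theorem cdg_nn {W : Type u} [Fintype W] (S : SimpleGraph W) (u w : W) : 0 ≤ cdg S u w :=
  Nat.cast_nonneg _

/-- the comparison of the two-step sums -/
theorem sum_rst (hS : S2 ≤ dbl Gh A D) (R : ℕ) (hR : ∀ x, (nb S2 x).card ≤ R) (u : V)
    (hu : u ∈ A) (T : Finset V) (huT : u ∈ T) :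
    ∑ x ∈ univ \ cop A false T, cdg S2 ⟨(u, false), hu⟩ x ≤
      ∑ w ∈ univ \ T, cdg (rst A S2) u w + 2 * R := by
  have h1 : ∑ x ∈ univ \ cop A false T, cdg S2 ⟨(u, false), hu⟩ x =
      ∑ x ∈ (univ \ cop A false T).filter (fun x => x.1.2 = false), cdg S2 ⟨(u, false), hu⟩ x +
      ∑ x ∈ (univ \ cop A false T).filter (fun x => ¬ x.1.2 = false),
        cdg S2 ⟨(u, false), hu⟩ x := (sum_filter_add_sum_filter_not _ _ _).symm
  have h2 : ∑ x ∈ (univ \ cop A false T).filter (fun x => x.1.2 = false),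
      cdg S2 ⟨(u, false), hu⟩ x ≤ ∑ w ∈ univ \ T, cdg (rst A S2) u w := by
    have hinj : Set.InjOn (fun x : DV A => x.1.1)
        ((univ \ cop A false T).filter (fun x => x.1.2 = false) : Finset (DV A)) := by
      intro x hx y hy hxy
      rw [mem_coe, mem_filter] at hx hy
      apply Subtype.ext
      exact Prod.ext hxy (hx.2.trans hy.2.symm)
    have h3 : ∑ x ∈ (univ \ cop A false T).filter (fun x => x.1.2 = false),
        cdg (rst A S2) u x.1.1 = ∑ w ∈ ((univ \ cop A false T).filter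
          (fun x => x.1.2 = false)).image (fun x : DV A => x.1.1), cdg (rst A S2) u w :=
      (sum_image hinj).symm
    refine le_trans (sum_le_sum (g := fun x => cdg (rst A S2) u x.1.1) ?_) ?_
    · intro x hx
      rw [mem_filter, Finset.mem_sdiff, cop, mem_filter] at hx
      have h4 : x = ⟨(x.1.1, false), x.2⟩ := by
        apply Subtype.ext
        exact Prod.ext rfl hx.2
      have h5 : u ≠ x.1.1 := by
        intro h
        exact hx.1.2 ⟨mem_univ _, h ▸ huT, hx.2⟩
      have h6 := cdg_rst hS u x.1.1 hu x.2 h5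
      rwa [← h4] at h6
    · rw [h3]
      refine sum_le_sum_of_subset_of_nonneg ?_ fun w _ _ => cdg_nn _ _ _
      intro w hw
      rw [mem_image] at hw
      obtain ⟨x, hx, rfl⟩ := hw
      rw [mem_filter, Finset.mem_sdiff, cop, mem_filter] at hx
      rw [Finset.mem_sdiff]
      exact ⟨mem_univ _, fun h => hx.1.2 ⟨mem_univ _, h, hx.2⟩⟩
  have h3 : ∑ x ∈ (univ \ cop A false T).filter (fun x => ¬ x.1.2 = false),
      cdg S2 ⟨(u, false), hu⟩ x ≤ 2 * R := by
    refine le_trans (sum_le_sum_of_subset_of_nonneg (t := univ.filter fun x => ¬ x.1.2 = false)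
      (filter_subset_filter _ (subset_univ _)) fun x _ _ => cdg_nn _ _ _) ?_
    rw [sum_cdg]
    rw [← sum_filter_add_sum_filter_not (nb S2 ⟨(u, false), hu⟩) fun y => y.1.2 = false]
    have e1 : ∑ y ∈ (nb S2 ⟨(u, false), hu⟩).filter (fun y => y.1.2 = false),
        ((nb S2 y ∩ univ.filter fun x => ¬ x.1.2 = false).card : ℝ) ≤ R := by
      refine le_trans (sum_le_sum (g := fun _ => (1 : ℝ)) ?_) ?_
      · intro y hy
        rw [mem_filter] at hy
        have := card_oth hS y univ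
        rw [inter_univ] at this
        have e : (nb S2 y ∩ univ.filter fun x => ¬ x.1.2 = false) =
            (nb S2 y).filter fun z => z.1.2 ≠ y.1.2 := by
          ext z
          simp only [mem_inter, mem_filter, mem_univ, true_and, hy.2, ne_eq]
        rw [e]
        exact_mod_cast this
      · rw [sum_const, nsmul_eq_mul, mul_one]
        exact_mod_cast (card_le_card (filter_subset _ _)).trans (hR _)
    have e2 : ∑ y ∈ (nb S2 ⟨(u, false), hu⟩).filter (fun y => ¬ y.1.2 = false),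
        ((nb S2 y ∩ univ.filter fun x => ¬ x.1.2 = false).card : ℝ) ≤ R := by
      have e3 : ((nb S2 ⟨(u, false), hu⟩).filter (fun y => ¬ y.1.2 = false)).card ≤ 1 := by
        have := card_oth hS ⟨(u, false), hu⟩ univ
        rw [inter_univ] at this
        exact this
      refine le_trans (sum_le_sum (g := fun _ => (R : ℝ)) ?_) ?_
      · intro y _
        exact_mod_cast (card_le_card inter_subset_left).trans (hR y)
      · rw [sum_const, nsmul_eq_mul]
        have : (((nb S2 ⟨(u, false), hu⟩).filter (fun y => ¬ y.1.2 = false)).card : ℝ) ≤ 1 := by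
          exact_mod_cast e3
        nlinarith [(Nat.cast_nonneg R : (0 : ℝ) ≤ R)]
    linarith
  rw [h1]
  linarith

theorem sum_dbl (hA : ∀ v w, Gh.Adj v w → w ∈ A) (u : V) (hu : u ∈ A) (T : Finset V) :
    ∑ w ∈ univ \ T, cdg Gh u w ≤
      ∑ x ∈ univ \ cop A false T, cdg (dbl Gh A D) ⟨(u, false), hu⟩ x := by
  have h0 : ∑ w ∈ univ \ T, cdg Gh u w = ∑ w ∈ (univ \ T).filter (fun w => w ∈ A), cdg Gh u w := by
    rw [sum_filter]
    refine sum_congr rfl fun w _ => ?_
    split_ifs with h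
    · rfl
    · unfold cdg
      have : nb Gh w = ∅ := by
        rw [eq_empty_iff_forall_notMem]
        intro y hy
        exact h (hA y w (mem_nb.1 hy).symm)
      rw [this, inter_empty, card_empty, Nat.cast_zero]
  rw [h0]
  have h1 : ∑ w ∈ (univ \ T).filter (fun w => w ∈ A), cdg Gh u w ≤
      ∑ w ∈ (univ \ T).filter (fun w => w ∈ A),
        (if hw : w ∈ A then cdg (dbl Gh A D) ⟨(u, false), hu⟩ ⟨(w, false), hw⟩ else 0) := by
    refine sum_le_sum fun w hw => ?_
    rw [mem_filter] at hw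
    rw [dif_pos hw.2]
    exact cdg_dbl hA u w hu hw.2
  refine h1.trans ?_
  have hinj : Set.InjOn (fun w : V => if hw : w ∈ A then (⟨(w, false), hw⟩ : DV A) else
      ⟨(u, false), hu⟩) ((univ \ T).filter (fun w => w ∈ A) : Finset V) := by
    intro y hy z hz hyz
    rw [mem_coe, mem_filter] at hy hz
    dsimp only at hyz
    rw [dif_pos hy.2, dif_pos hz.2] at hyz
    have := congrArg (fun x : DV A => x.1.1) hyz
    exact this
  have h2 : ∑ w ∈ (univ \ T).filter (fun w => w ∈ A),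
        (if hw : w ∈ A then cdg (dbl Gh A D) ⟨(u, false), hu⟩ ⟨(w, false), hw⟩ else 0) =
      ∑ w ∈ (univ \ T).filter (fun w => w ∈ A),
        cdg (dbl Gh A D) ⟨(u, false), hu⟩ (if hw : w ∈ A then (⟨(w, false), hw⟩ : DV A) else
          ⟨(u, false), hu⟩) := by
    refine sum_congr rfl fun w hw => ?_
    rw [mem_filter] at hw
    rw [dif_pos hw.2, dif_pos hw.2]
  rw [h2, ← sum_image (f := fun x => cdg (dbl Gh A D) ⟨(u, false), hu⟩ x) hinj]
  refine sum_le_sum_of_subset_of_nonneg ?_ fun x _ _ => cdg_nn _ _ _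
  intro x hx
  rw [mem_image] at hx
  obtain ⟨w, hw, rfl⟩ := hx
  rw [mem_filter, Finset.mem_sdiff] at hw
  rw [dif_pos hw.2, Finset.mem_sdiff, cop, mem_filter]
  exact ⟨mem_univ _, fun h => hw.1.2 h.2.1⟩

end

end Pool.Agent.Work.MP_db9399_sg.helper35
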